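import Mathlib

namespace Pool.Agent.Results.MP_be01c1_co.Counter

/-- The Gilbert graph for `q = 2`. -/
def gilbert (n d : ℕ) : SimpleGraph (Fin n → ZMod 2) :=
  SimpleGraph.fromRel fun u u' => 1 ≤ hammingNorm (u - u') ∧ hammingNorm (u - u') ≤ d - 1

/-- The eigenvalue of the Gilbert graph attached to `v` (here `z = -1`). -/
def lam (n d : ℕ) (v : Fin n → ZMod 2) : ℤ :=
  ∑ u : Fin n → ZMod 2 with 1 ≤ hammingNorm u ∧ hammingNorm u ≤ d - 1, (-1) ^ (u ⬝ᵥ v).val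

def vec (n : ℕ) : Fin 8 → ZMod 2 := fun i => if n.testBit i.val then 1 else 0

def pc (n : ℕ) : ℕ := n % 2 + n / 2 % 2 + n / 4 % 2 + n / 8 % 2 + n / 16 % 2 + n / 32 % 2 +
  n / 64 % 2 + n / 128 % 2

theorem vec_xor (a b : ℕ) : vec a - vec b = vec (a ^^^ b) := by
  funext i
  simp only [vec, Pi.sub_apply, Nat.testBit_xor]
  cases a.testBit i.val <;> cases b.testBit i.val <;> decide

theorem vec_norm : ∀ a : Fin 256, hammingNorm (vec a.val) = pc a.val := by decide +kernel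

theorem vec_dot (a b : ℕ) : vec a ⬝ᵥ vec b = ∑ i, vec (a &&& b) i := by
  unfold dotProduct
  refine Finset.sum_congr rfl fun i _ => ?_
  simp only [vec, Nat.testBit_and]
  cases a.testBit i.val <;> cases b.testBit i.val <;> decide

theorem vec_sum : ∀ a : Fin 256, (∑ i, vec a.val i).val = pc a.val % 2 := by decide +kernel

theorem vec_inj : Function.Injective fun a : Fin 256 => vec a.val := by
  intro a b h
  have h1 : vec (a.val ^^^ b.val) = 0 := by rw [← vec_xor]; exact sub_eq_zero.mpr h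
  have h2 : a.val ^^^ b.val < 256 := Nat.xor_lt_two_pow (n := 8) a.2 b.2
  have h3 : ∀ c : Fin 256, pc c.val = 0 → c.val = 0 := by decide +kernel
  have h4 := vec_norm ⟨_, h2⟩
  simp only [h1, hammingNorm_zero] at h4
  exact Fin.ext (Nat.xor_eq_zero_iff.mp (h3 ⟨_, h2⟩ h4.symm))

noncomputable def E : Fin 256 ≃ (Fin 8 → ZMod 2) :=
  Equiv.ofBijective _ ((Fintype.bijective_iff_injective_and_card _).mpr ⟨vec_inj, by simp⟩)

theorem dotE (a b : Fin 256) : (E a ⬝ᵥ E b).val = pc (a.val &&& b.val) % 2 := by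
  have h2 : a.val &&& b.val < 256 := lt_of_le_of_lt Nat.and_le_left a.2
  exact (congrArg ZMod.val (vec_dot a.val b.val)).trans (vec_sum ⟨_, h2⟩)

theorem normE (a b : Fin 256) : hammingNorm (E a - E b) = pc (a.val ^^^ b.val) :=
  (congrArg hammingNorm (vec_xor a.val b.val)).trans
    (vec_norm ⟨_, Nat.xor_lt_two_pow (n := 8) a.2 b.2⟩)

def lamN (b : ℕ) : ℤ := ∑ a ∈ Finset.range 256,
  if 1 ≤ pc a ∧ pc a ≤ 4 then (if pc (a &&& b) % 2 = 0 then 1 else -1) else 0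

theorem lamE (b : Fin 256) : lam 8 5 (E b) = lamN b.val := by
  unfold lam lamN
  rw [Finset.sum_filter, ← E.sum_comp, Finset.sum_range]
  refine Finset.sum_congr rfl fun a _ => ?_
  rw [dotE, show hammingNorm (E a) = pc a.val from vec_norm a]
  rcases Nat.mod_two_eq_zero_or_one (pc (a.val &&& b.val)) with h | h <;> simp [h]

theorem lamN_ge : ∀ b : Fin 256, -6 ≤ lamN b.val := by decide +kernel

def cnt (v a : ℕ) : ℕ :=
  ((Finset.range 256).filter fun z => pc (z &&& v) % 2 = 0 ∧ 5 ≤ pc z ∧ 5 ≤ pc (z ^^^ a)).card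

theorem cnt7 : ∀ a : Fin 256, 5 ≤ pc a.val → pc (a.val &&& 7) % 2 = 0 → cnt 7 a.val ≤ 12 := by
  decide +kernel

theorem far (x y : Fin 8 → ZMod 2) :
    (x ≠ y ∧ ¬ (gilbert 8 5).Adj x y) ↔ 5 ≤ hammingNorm (x - y) := by
  have h1 : hammingNorm (y - x) = hammingNorm (x - y) := by
    simp only [hammingNorm, Pi.sub_apply, ne_eq, sub_eq_zero, eq_comm]
  have h2 : x ≠ y ↔ 1 ≤ hammingNorm (x - y) := by
    rw [Nat.one_le_iff_ne_zero, hammingNorm_ne_zero_iff, sub_ne_zero]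
  simp only [gilbert, SimpleGraph.fromRel_adj, h1, h2]
  omega

theorem cnt_eq (b a : Fin 256) : cnt b.val a.val =
    {z | z ⬝ᵥ E b = 0 ∧ 5 ≤ hammingNorm z ∧ 5 ≤ hammingNorm (z - E a)}.ncard := by
  rw [← Set.ncard_image_of_injective _ E.symm.injective,
    ← Set.ncard_image_of_injective _ Fin.val_injective, cnt, ← Set.ncard_coe_finset]
  congr 1
  ext z
  simp only [Finset.coe_filter, Finset.mem_range, Set.mem_ofPred_eq, Set.mem_image,
    exists_exists_and_eq_and]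
  constructor
  · rintro ⟨h0, h1, h2, h3⟩
    refine ⟨E ⟨z, h0⟩, ⟨?_, ?_, ?_⟩, by simp⟩
    · rw [← ZMod.val_eq_zero, dotE]; exact h1
    · rw [show hammingNorm (E ⟨z, h0⟩) = pc z from vec_norm ⟨z, h0⟩]; exact h2
    · rw [normE]; exact h3
  · rintro ⟨u, ⟨h1, h2, h3⟩, rfl⟩
    obtain ⟨c, rfl⟩ := E.surjective u
    rw [← ZMod.val_eq_zero, dotE] at h1
    rw [show hammingNorm (E c) = pc c.val from vec_norm c] at h2
    rw [normE] at h3
    simp only [Equiv.symm_apply_apply]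
    exact ⟨c.2, h1, h2, h3⟩

theorem result : ∃ v v' : Fin 8 → ZMod 2, (gilbert 8 5).edgeSet.Nonempty ∧
    IsLeast (Set.range (lam 8 5)) (lam 8 5 v) ∧ lam 8 5 v' = lam 8 5 v ∧
    IsEmpty ((gilbert 8 5).induce {u | u ⬝ᵥ v = 0} ≃g (gilbert 8 5).induce {u | u ⬝ᵥ v' = 0}) := by
  have l3 : lam 8 5 (E 3) = -6 := (lamE 3).trans (by decide +kernel)
  have l7 : lam 8 5 (E 7) = -6 := (lamE 7).trans (by decide +kernel)
  refine ⟨E 3, E 7, ⟨s(E 1, E 0), ?_⟩, ⟨⟨_, rfl⟩, ?_⟩, l7.trans l3.symm, ⟨fun φ => ?_⟩⟩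
  · refine ⟨E.injective.ne (by decide), .inl ?_⟩
    show 1 ≤ hammingNorm (E 1 - E 0) ∧ hammingNorm (E 1 - E 0) ≤ 5 - 1
    rw [normE]
    decide
  · rintro _ ⟨w, rfl⟩
    obtain ⟨b, rfl⟩ := E.surjective w
    rw [l3, lamE]
    exact lamN_ge b
  · let x0 : {u | u ⬝ᵥ E 3 = 0} := ⟨0, by simp⟩
    let y0 : {u | u ⬝ᵥ E 3 = 0} := ⟨E 124, by
      show E 124 ⬝ᵥ E 3 = 0
      rw [← ZMod.val_eq_zero, dotE]; decide⟩
    have key : ∀ s t : {u | u ⬝ᵥ E 3 = 0}, 5 ≤ hammingNorm (s.1 - t.1) →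
        5 ≤ hammingNorm ((φ s).1 - (φ t).1) := by
      intro s t h
      rw [← far] at h ⊢
      exact ⟨fun e => h.1 (congrArg Subtype.val (φ.injective (Subtype.ext e))),
        fun e => h.2 (φ.map_rel_iff.mp e)⟩
    obtain ⟨a, ha⟩ := E.surjective ((φ y0).1 - (φ x0).1)
    have h5 : 5 ≤ pc a.val := by
      rw [← vec_norm a]
      show 5 ≤ hammingNorm (E a)
      rw [ha]
      apply key
      show 5 ≤ hammingNorm (E 124 - 0)
      rw [sub_zero, show hammingNorm (E 124) = pc 124 from vec_norm 124]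
      decide
    have h7 : pc (a.val &&& 7) % 2 = 0 := by
      have := dotE a 7
      rw [ha, sub_dotProduct, (φ y0).2, (φ x0).2] at this
      exact this.symm
    have c1 : cnt 7 a.val ≤ 12 := cnt7 a h5 h7
    have c2 : cnt 3 124 = 20 := by decide +kernel
    have c3 : cnt 3 124 ≤ cnt 7 a.val := by
      refine (cnt_eq 3 124).le.trans (le_trans ?_ (cnt_eq 7 a).ge)
      classical
      refine Set.ncard_le_ncard_of_injOn
        (fun z => if h : z ⬝ᵥ E 3 = 0 then (φ ⟨z, h⟩).1 - (φ x0).1 else 0) ?_ ?_ (Set.toFinite _)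
      · rintro z ⟨h1, h2, h3⟩
        simp only [h1, dif_pos, Set.mem_ofPred_eq]
        refine ⟨by rw [sub_dotProduct, (φ _).2, (φ x0).2, sub_zero], key _ _ (by simpa [x0]), ?_⟩
        rw [ha, sub_sub_sub_cancel_right]
        exact key _ _ h3
      · rintro z ⟨h1, -⟩ z' ⟨h1', -⟩ h
        simp only [h1, h1', dif_pos, sub_left_inj] at h
        exact congrArg Subtype.val (φ.injective (Subtype.ext h))
    omega

end Pool.Agent.Results.MP_be01c1_co.Counter
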